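import Mathlib
import Pool.Agent.Hhelper22.Turan.Final

/-!
The minima in the pure power sum problem of Turan converge, and the limit is at most 7/10.
-/

set_option autoImplicit false

open Filter Topology

namespace Pool.Agent.Results.MP_6f83fd_an.LimitExists

/-- The set `K_n` for `n = m + 1`: first entry `1`, all entries of modulus at most `1`. -/
def Kset (m : ℕ) : Set (Fin (m + 1) → ℂ) := {z | z 0 = 1 ∧ ∀ j, ‖z j‖ ≤ 1}

/-- The power sum of degree `k`. -/
noncomputable def powerSum {m : ℕ} (z : Fin (m + 1) → ℂ) (k : ℕ) : ℂ := ∑ j, z j ^ k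

/-- `M` is the largest modulus among the power sums of degrees `1, …, n`, `n = m + 1`. -/
def IsMaxPowerSum {m : ℕ} (z : Fin (m + 1) → ℂ) (M : ℝ) : Prop :=
  IsGreatest {x : ℝ | ∃ k : ℕ, 1 ≤ k ∧ k ≤ m + 1 ∧ x = ‖powerSum z k‖} M

/-- `s` is `σ_n`, `n = m + 1`: the minimum over `K_n` of the largest modulus of the power sums of
degrees `1, …, n`. -/
def IsTuranMin (m : ℕ) (s : ℝ) : Prop :=
  IsLeast {M : ℝ | ∃ z ∈ Kset m, IsMaxPowerSum z M} s

lemma bdd {m : ℕ} (z : Fin (m + 1) → ℂ) :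
    BddAbove (Set.range (fun k : Fin (m + 1) => ‖∑ j, z j ^ (k.val + 1)‖)) :=
  (Set.finite_range _).bddAbove

lemma isMax_iff {m : ℕ} (z : Fin (m + 1) → ℂ) (M : ℝ) :
    IsMaxPowerSum z M ↔ M = ⨆ k : Fin (m + 1), ‖∑ j, z j ^ (k.val + 1)‖ := by
  have hmax : IsMaxPowerSum z (⨆ k : Fin (m + 1), ‖∑ j, z j ^ (k.val + 1)‖) := by
    constructor
    · obtain ⟨k, hk⟩ := exists_eq_ciSup_of_finite (f := fun k : Fin (m + 1) => ‖∑ j, z j ^ (k.val + 1)‖)
      exact ⟨k.val + 1, by omega, by have := k.2; omega, hk.symm⟩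
    · rintro x ⟨k, hk1, hk2, rfl⟩
      have h := le_ciSup (bdd z) (⟨k - 1, by omega⟩ : Fin (m + 1))
      simp only at h
      rwa [Nat.sub_add_cancel hk1] at h
  constructor
  · intro h
    exact h.unique hmax
  · rintro rfl
    exact hmax

lemma isCompact_Kset (m : ℕ) : IsCompact (Kset m) := by
  apply Metric.isCompact_of_isClosed_isBounded
  · have h1 : Kset m = {z | z 0 = 1} ∩ ⋂ j, {z : Fin (m + 1) → ℂ | ‖z j‖ ≤ 1} := by
      ext z
      simp [Kset]
    rw [h1]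
    apply IsClosed.inter
    · exact isClosed_eq (continuous_apply 0) continuous_const
    · exact isClosed_iInter (fun j => isClosed_le ((continuous_apply j).norm) continuous_const)
  · apply (Metric.isBounded_closedBall (x := (0 : Fin (m + 1) → ℂ)) (r := 1)).subset
    intro z hz
    rw [mem_closedBall_zero_iff, pi_norm_le_iff_of_nonneg zero_le_one]
    exact hz.2

lemma continuous_sup (m : ℕ) :
    Continuous (fun z : Fin (m + 1) → ℂ => ⨆ k : Fin (m + 1), ‖∑ j, z j ^ (k.val + 1)‖) := by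
  have h : (fun z : Fin (m + 1) → ℂ => ⨆ k : Fin (m + 1), ‖∑ j, z j ^ (k.val + 1)‖)
      = fun z => Finset.univ.sup' Finset.univ_nonempty
        (fun k : Fin (m + 1) => ‖∑ j, z j ^ (k.val + 1)‖) := by
    funext z
    rw [Finset.sup'_univ_eq_ciSup]
  rw [h]
  apply Continuous.finset_sup'_apply
  intro k _
  fun_prop

lemma isTuranMin_ff (m : ℕ) : IsTuranMin m (Pool.Agent.Hhelper22.Turan.ff m) := by
  have hne : (Kset m).Nonempty := ⟨fun _ => 1, rfl, fun _ => by simp⟩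
  obtain ⟨z, hz, hmin⟩ := (isCompact_Kset m).exists_isMinOn hne (continuous_sup m).continuousOn
  have hb : BddBelow (Set.range (fun z : {z : Fin (m + 1) → ℂ // z 0 = 1 ∧ ∀ j, ‖z j‖ ≤ 1} =>
      ⨆ k : Fin (m + 1), ‖∑ j, (z.1 j) ^ (k.val + 1)‖)) := by
    refine ⟨0, ?_⟩
    rintro _ ⟨z, rfl⟩
    exact Pool.Agent.Hhelper22.Turan.sup_nonneg z.1
  have heq : Pool.Agent.Hhelper22.Turan.ff m = ⨆ k : Fin (m + 1), ‖∑ j, z j ^ (k.val + 1)‖ := by
    apply le_antisymm
    · exact ciInf_le hb ⟨z, hz⟩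
    · have : Nonempty {z : Fin (m + 1) → ℂ // z 0 = 1 ∧ ∀ j, ‖z j‖ ≤ 1} := ⟨⟨z, hz⟩⟩
      apply le_ciInf
      intro w
      exact hmin w.2
  constructor
  · exact ⟨z, hz, (isMax_iff z _).2 heq⟩
  · rintro M ⟨w, hw, hM⟩
    rw [isMax_iff] at hM
    rw [hM]
    exact ciInf_le hb ⟨w, hw⟩

/-- The sequence of the minima is well defined and converges; its limit is at most `7/10`. -/
theorem result :
    (∀ m, ∃! s, IsTuranMin m s) ∧
    ∃ L : ℝ, L ≤ 7 / 10 ∧
      ∀ σ : ℕ → ℝ, (∀ m, IsTuranMin m (σ m)) → Tendsto σ atTop (𝓝 L) := by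
  refine ⟨fun m => ⟨_, isTuranMin_ff m, fun s hs => hs.unique (isTuranMin_ff m)⟩, ?_⟩
  obtain ⟨L, hL⟩ := Pool.Agent.Hhelper22.Turan.tendsto_ff
  refine ⟨L, ?_, ?_⟩
  · have hf : ∃ᶠ m in atTop, Pool.Agent.Hhelper22.Turan.ff m ≤ 7 / 10 := by
      have h := Pool.Agent.Hhelper22.Turan.explicit_exists
      rw [Filter.frequently_atTop]
      intro a
      obtain ⟨J0, hJ0⟩ := Filter.eventually_atTop.1 h
      refine ⟨2 * (J0 + a + 1) - 1, by omega, ?_⟩
      obtain ⟨s, hs, hT⟩ := hJ0 (J0 + a + 1) (by omega)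
      apply Pool.Agent.Hhelper22.Turan.ff_le
      refine ⟨s, fun k _ _ => hs k, ?_⟩
      rw [show 2 * (J0 + a + 1) - 1 + 1 = 2 * (J0 + a + 1) by omega]
      exact hT
    by_contra hcon
    push Not at hcon
    have h1 := hL.eventually (lt_mem_nhds hcon)
    obtain ⟨m, hm1, hm2⟩ := (hf.and_eventually h1).exists
    linarith
  · intro σ hσ
    have : σ = Pool.Agent.Hhelper22.Turan.ff := by
      funext m
      exact (hσ m).unique (isTuranMin_ff m)
    rw [this]
    exact hL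

end Pool.Agent.Results.MP_6f83fd_an.LimitExists
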